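import Pool.Agent.Helper81.AD2.Goals

/-!
Project AD2 (MP_ccb3f4_gt): goal CAN1, every word is a combination of canonical words modulo the
commutation relations and the renamings.
-/

set_option autoImplicit false

namespace Pool.Agent.Helper44.AD2.CAN1

open Pool.Agent.Helper88.AD Pool.Agent.Helper81.AD2

variable {d : ℕ}

/-- the tails come in the order of their names -/
def T (w : List (Pt d)) : Prop :=
  w.Pairwise fun p q => p.2 = true → q.2 = true → p.1 < q.1

/-- number of the pairs head before tail -/
def inv : List (Pt d) → ℕ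
  | [] => 0
  | p :: l => (if p.2 = false then l.countP (fun q => q.2) else 0) + inv l

theorem inv_swap (u v : List (Pt d)) (i j : Fin d) :
    inv (u ++ (i, false) :: (j, true) :: v) = inv (u ++ (j, true) :: (i, false) :: v) + 1 := by
  induction u with
  | nil =>
    simp only [List.nil_append, inv]
    simp
    omega
  | cons p u ih =>
    have h : (u ++ (i, false) :: (j, true) :: v).countP (fun q => q.2) =
        (u ++ (j, true) :: (i, false) :: v).countP (fun q => q.2) := by
      simp [List.countP_append]
    simp only [List.cons_append, inv]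
    rw [ih, h]
    omega

theorem T_swap {u v : List (Pt d)} {i j : Fin d} (h : T (u ++ (i, false) :: (j, true) :: v)) :
    T (u ++ (j, true) :: (i, false) :: v) := by
  unfold T at h ⊢
  rw [List.pairwise_append, List.pairwise_cons, List.pairwise_cons] at h ⊢
  obtain ⟨h1, ⟨h2, h3, h4⟩, h5⟩ := h
  refine ⟨h1, ⟨?_, ?_, h4⟩, ?_⟩
  · intro q hq
    rw [List.mem_cons] at hq
    rcases hq with rfl | hq
    · intro _ h
      exact absurd h (by simp)
    · exact h3 q hq
  · intro q hq h
    exact absurd h (by simp)
  · intro a ha b hb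
    apply h5 a ha b
    rw [List.mem_cons, List.mem_cons] at hb ⊢
    tauto

theorem isD_nodup {w : List (Pt d)} (h : IsD w) : w.Nodup :=
  List.nodup_iff_count_le_one.2 fun p => (h p).le

theorem isD_mem {w : List (Pt d)} (h : IsD w) (p : Pt d) : p ∈ w := by
  rw [← List.count_pos_iff, h p]
  exact Nat.one_pos

theorem idx_of_T {w : List (Pt d)} (h : IsD w) (hT : T w) {i j : Fin d} (hij : i < j) :
    w.idxOf (i, true) < w.idxOf (j, true) := by
  by_contra hn
  rw [not_lt] at hn
  have hi : w.idxOf (i, true) < w.length := List.idxOf_lt_length_iff.2 (isD_mem h _)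
  have hj : w.idxOf (j, true) < w.length := List.idxOf_lt_length_iff.2 (isD_mem h _)
  have ei : w[w.idxOf (i, true)] = (i, true) := List.getElem_idxOf hi
  have ej : w[w.idxOf (j, true)] = (j, true) := List.getElem_idxOf hj
  rcases lt_or_eq_of_le hn with hlt | heq
  · unfold T at hT
    rw [List.pairwise_iff_getElem] at hT
    have := hT _ _ hj hi hlt
    rw [ei, ej] at this
    exact absurd (this rfl rfl) (not_lt.2 hij.le)
  · have h1 : ((j, true) : Pt d) = (i, true) := by
      rw [← ei, ← ej]
      simp only [heq]
    exact absurd (congrArg Prod.fst h1) hij.ne'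

theorem T_of_idx {w : List (Pt d)} (h : IsD w)
    (hT : ∀ i j : Fin d, i < j → w.idxOf (i, true) < w.idxOf (j, true)) : T w := by
  unfold T
  rw [List.pairwise_iff_getElem]
  intro k l hk hl hkl h1 h2
  have hnd := isD_nodup h
  have ek : w.idxOf w[k] = k := hnd.idxOf_getElem k hk
  have el : w.idxOf w[l] = l := hnd.idxOf_getElem l hl
  have fk : w[k] = ((w[k]).1, true) := Prod.ext rfl h1
  have fl : w[l] = ((w[l]).1, true) := Prod.ext rfl h2
  by_contra hn
  rw [not_lt] at hn
  rcases lt_or_eq_of_le hn with hlt | heq
  · have := hT _ _ hlt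
    rw [← fk, ← fl, ek, el] at this
    omega
  · have : w[k] = w[l] := by rw [fk, fl, heq]
    rw [this, el] at ek
    omega

theorem idx_ren (σ : Equiv.Perm (Fin d)) (w : List (Pt d)) (i : Fin d) (b : Bool) :
    (ren σ w).idxOf (i, b) = w.idxOf (σ.symm i, b) := by
  unfold ren
  induction w with
  | nil => rfl
  | cons p w ih =>
    rw [List.map_cons, List.idxOf_cons, List.idxOf_cons, ih]
    have h : ((σ p.1, p.2) == (i, b)) = (p == (σ.symm i, b)) := by
      rw [Bool.eq_iff_iff, beq_iff_eq, beq_iff_eq]
      constructor
      · intro h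
        have h1 := congrArg Prod.fst h
        have h2 := congrArg Prod.snd h
        refine Prod.ext ?_ h2
        exact (σ.symm_apply_eq.2 (h1 : σ p.1 = i).symm).symm
      · rintro rfl
        simp
    rw [h]

theorem ex_ren {w : List (Pt d)} (h : IsD w) : ∃ σ : Equiv.Perm (Fin d), T (ren σ w) := by
  let p : Fin d → ℕ := fun i => w.idxOf (i, true)
  have hp : Function.Injective p := by
    intro i j hij
    have hi : w.idxOf (i, true) < w.length := List.idxOf_lt_length_iff.2 (isD_mem h _)
    have hj : w.idxOf (j, true) < w.length := List.idxOf_lt_length_iff.2 (isD_mem h _)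
    have ei : w[w.idxOf (i, true)] = (i, true) := List.getElem_idxOf hi
    have ej : w[w.idxOf (j, true)] = (j, true) := List.getElem_idxOf hj
    have hij' : w.idxOf (i, true) = w.idxOf (j, true) := hij
    have h1 : ((i, true) : Pt d) = (j, true) := by
      rw [← ei, ← ej]
      simp only [hij']
    exact congrArg Prod.fst h1
  have hm : StrictMono (p ∘ Tuple.sort p) :=
    (Tuple.monotone_sort p).strictMono_of_injective (hp.comp (Tuple.sort p).injective)
  refine ⟨(Tuple.sort p).symm, T_of_idx ((isD_ren _ w).2 h) ?_⟩
  intro i j hij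
  rw [idx_ren, idx_ren, Equiv.symm_symm]
  exact hm hij

theorem main (w : List (Pt d)) (h : IsD w) (hT : T w) :
    el w ∈ N1 d ⊔ RN d ⊔ Submodule.span ℚ {v | ∃ u : List (Pt d), Can u ∧ v = el u} := by
  induction hn : inv w generalizing w with
  | zero =>
    apply Submodule.mem_sup_right
    apply Submodule.subset_span
    refine ⟨w, ⟨h, fun i j hij => idx_of_T h hT hij, ?_⟩, rfl⟩
    intro u v i j huv
    rw [huv, inv_swap] at hn
    omega
  | succ n ih =>
    by_cases hc : Can w
    · exact Submodule.mem_sup_right (Submodule.subset_span ⟨w, hc, rfl⟩)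
    · have : ∃ (u v : List (Pt d)) (i j : Fin d), w = u ++ (i, false) :: (j, true) :: v ∧ i ≠ j := by
        by_contra hno
        apply hc
        refine ⟨h, fun i j hij => idx_of_T h hT hij, ?_⟩
        intro u v i j huv
        by_contra hij
        exact hno ⟨u, v, i, j, huv, hij⟩
      obtain ⟨u, v, i, j, rfl, hij⟩ := this
      have hperm : (u ++ (i, false) :: (j, true) :: v).Perm (u ++ (j, true) :: (i, false) :: v) :=
        List.Perm.append_left u (List.Perm.swap _ _ _)
      have h1 := ih (u ++ (j, true) :: (i, false) :: v) ((isD_perm hperm).1 h) (T_swap hT)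
        (by rw [inv_swap] at hn; omega)
      have h2 : el (u ++ (i, false) :: (j, true) :: v) - el (u ++ (j, true) :: (i, false) :: v) ∈
          N1 d := Submodule.subset_span ⟨u, v, i, j, false, hij, rfl⟩
      have h3 := Submodule.add_mem _
        (Submodule.mem_sup_left (Submodule.mem_sup_left (T := RN d) h2)) h1
      rw [sub_add_cancel] at h3
      exact h3

theorem t : S_CAN1 := by
  intro d w
  by_cases h : IsD w
  · obtain ⟨σ, hσ⟩ := ex_ren h
    have h1 := main (ren σ w) ((isD_ren σ w).2 h) hσ
    have h2 : el w - act σ (el w) ∈ RN d := Submodule.subset_span ⟨σ, el w, rfl⟩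
    rw [act_el] at h2
    have h3 := Submodule.add_mem _
      (Submodule.mem_sup_left (Submodule.mem_sup_right (S := N1 d) h2)) h1
    rw [sub_add_cancel] at h3
    exact h3
  · rw [el_of_not h]
    exact Submodule.zero_mem _

end Pool.Agent.Helper44.AD2.CAN1
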